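import Pool.Agent.Helper74.DI.St

/-! Project DI (MP_26f0da_lc), module HT1: the first configuration. -/

set_option autoImplicit false

namespace Pool.Agent.Helper70.DI

open Pool.Agent.Helper74 Pool.Agent.Helper74.DI
open Pool.Agent.Helper74.NM (NC)
open Pool.Agent.Helper74.WB (OP QW rl enc iv ap rd Red)

open scoped Classical

section

variable {G : Type}

/-- the code -/
private def kk (x1 x2 c y1 y2 d : G) (a : (Bool × Bool) × Bool) : List G :=
  match a.1 with
  | (false, true) => [x2, y1]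
  | (false, false) => [x1, y2]
  | (true, true) => [c, y1, x2, d]
  | (true, false) => [c, y2, x1, d]

/-- the states -/
private noncomputable def dl (c d : G) (s : Bool × ℤ) (x : G) : Bool × ℤ :=
  (!s.1, if s.1 = true then (if x = c then s.2 + 1 else s.2) else (if x = d then s.2 - 1 else s.2))

/-- the translation -/
private noncomputable def tf (x2 y2 : G) (s : Bool × ℤ) (x : G) : List ((ℤ × Bool) × Bool) :=
  if s.1 = true then (if x = x2 then [((s.2, true), true)] else [])
  else (if x = y2 then [((s.2, false), false)] else [])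

/-- allowed letters -/
private def lt (x1 x2 c y1 y2 d : G) (s : Bool × ℤ) (x : G) : Prop :=
  (s.1 = true ∧ (x = x1 ∨ x = x2 ∨ x = c)) ∨ (s.1 = false ∧ (x = y1 ∨ x = y2 ∨ x = d))

/-- the new labels -/
private def io (i : Bool) : ℤ := if i = true then 1 else 0

private theorem io_inj : Function.Injective io := by
  intro a b h
  cases a <;> cases b <;> simp [io] at h ⊢

private theorem op_app {Λ : Type} (U : List ((Λ × Bool) × Bool)) (hU : OP U) (x : Λ × Bool) :
    OP (U ++ [(x, true)]) :=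
  WB.op_append U [(x, true)] hU (OP.skip x [] OP.nil)

private theorem one_letter {x1 x2 c y1 y2 d : G} (hx12 : x1 ≠ x2) (hx1c : x1 ≠ c) (hx2c : x2 ≠ c)
    (hy12 : y1 ≠ y2) (hy1d : y1 ≠ d) (hy2d : y2 ≠ d) (a : (Bool × Bool) × Bool)
    (ha : a.2 = a.1.2) :
    Al (dl c d) (lt x1 x2 c y1 y2 d) (true, 0) (kk x1 x2 c y1 y2 d a) ∧
    (kk x1 x2 c y1 y2 d a).foldl (dl c d) (true, 0) = (true, 0) ∧
    out (dl c d) (tf x2 y2) (true, 0) (kk x1 x2 c y1 y2 d a) = [rl io a] := by
  rcases a with ⟨⟨i, s⟩, o⟩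
  simp only at ha
  subst ha
  cases i <;> cases o
  · refine ⟨?_, ?_, ?_⟩
    · simp [kk, Al, dl, lt, hx1c]
    · simp [kk, dl, hx1c, hy2d]
    · simp [kk, out, dl, tf, hx1c, hx12, rl, io]
  · refine ⟨?_, ?_, ?_⟩
    · simp [kk, Al, dl, lt, hx2c]
    · simp [kk, dl, hx2c, hy1d]
    · simp [kk, out, dl, tf, hx2c, hy12, rl, io]
  · refine ⟨?_, ?_, ?_⟩
    · simp [kk, Al, dl, lt]
    · simp [kk, dl, hx1c, hy2d]
    · simp [kk, out, dl, tf, hx1c, hx12, hy2d, Ne.symm hx2c, Ne.symm hy2d, rl, io]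
  · refine ⟨?_, ?_, ?_⟩
    · simp [kk, Al, dl, lt]
    · simp [kk, dl, hx2c, hy1d]
    · simp [kk, out, dl, tf, hx2c, hy12, hy1d, Ne.symm hx2c, Ne.symm hy2d, rl, io]

private theorem all_letters {x1 x2 c y1 y2 d : G} (hx12 : x1 ≠ x2) (hx1c : x1 ≠ c) (hx2c : x2 ≠ c)
    (hy12 : y1 ≠ y2) (hy1d : y1 ≠ d) (hy2d : y2 ≠ d) (w : List ((Bool × Bool) × Bool))
    (hw : QW w) :
    Al (dl c d) (lt x1 x2 c y1 y2 d) (true, 0) (w.flatMap (kk x1 x2 c y1 y2 d)) ∧
    (w.flatMap (kk x1 x2 c y1 y2 d)).foldl (dl c d) (true, 0) = (true, 0) ∧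
    out (dl c d) (tf x2 y2) (true, 0) (w.flatMap (kk x1 x2 c y1 y2 d)) = w.map (rl io) := by
  induction w with
  | nil => exact ⟨trivial, rfl, rfl⟩
  | cons a w ih =>
    obtain ⟨h1, h2, h3⟩ := one_letter hx12 hx1c hx2c hy12 hy1d hy2d a (hw a List.mem_cons_self)
    obtain ⟨i1, i2, i3⟩ := ih (fun b hb => hw b (List.mem_cons_of_mem _ hb))
    rw [List.flatMap_cons]
    refine ⟨?_, ?_, ?_⟩
    · rw [al_append, h2]
      exact ⟨h1, i1⟩
    · rw [List.foldl_append, h2, i2]
    · rw [out_append, h2, h3, i3]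
      rfl

end

theorem hHT1 (hTRG : StTRG) (hFWD : StFWD) (hREL : WB.StREL) : StHT1 := by
  intro G R hsym ⟨x1, x2, c, y1, y2, d, h11, h21, h22, hcd, n12, n1d, n2d, nc1, nc2⟩
  have s11 := hsym _ _ h11
  have s21 := hsym _ _ h21
  have s22 := hsym _ _ h22
  have sdc := hsym _ _ hcd
  have hx12 : x1 ≠ x2 := fun e => n12 (e ▸ h22)
  have hx1c : x1 ≠ c := fun e => n1d (e ▸ hcd)
  have hx2c : x2 ≠ c := fun e => n2d (e ▸ hcd)
  have hy12 : y1 ≠ y2 := fun e => n12 (e ▸ h11)
  have hy1d : y1 ≠ d := fun e => nc1 (e ▸ hcd)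
  have hy2d : y2 ≠ d := fun e => nc2 (e ▸ hcd)
  refine ⟨kk x1 x2 c y1 y2 d, ?_, ?_⟩
  · rintro ⟨⟨i, s⟩, o⟩
    cases i <;> cases s <;> simp [kk]
  intro w hw
  constructor
  · intro h
    refine hFWD G R (kk x1 x2 c y1 y2 d) ?_ ?_ ?_ w hw h
    · intro i
      cases i
      · exact nc_pair _ _ h21
      · exact NC.wrap c d [y1, x2] [] hcd (nc_pair _ _ s21) NC.nil
    · intro i U hU
      cases i
      · have h1 := NC.wrap y1 x1 U [] s11 hU NC.nil
        have h2 := NC.wrap x2 y2 (y1 :: (U ++ [x1])) [] h22 h1 NC.nil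
        simpa [kk] using h2
      · have h1 := NC.wrap d c U [] sdc hU NC.nil
        have h2 := NC.wrap x2 y2 (d :: (U ++ [c])) [] h22 h1 NC.nil
        have h3 := NC.wrap y1 x1 (x2 :: ((d :: (U ++ [c])) ++ [y2])) [] s11 h2 NC.nil
        have h4 := NC.wrap c d (y1 :: ((x2 :: ((d :: (U ++ [c])) ++ [y2])) ++ [x1])) [] hcd h3
          NC.nil
        simpa [kk] using h4
    · intro i U hU
      cases i
      · have h1 := NC.wrap y2 x2 U [] s22 hU NC.nil
        have h2 := NC.wrap x1 y1 (y2 :: (U ++ [x2])) [] h11 h1 NC.nil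
        simpa [kk] using h2
      · have h1 := NC.wrap d c U [] sdc hU NC.nil
        have h2 := NC.wrap x1 y1 (d :: (U ++ [c])) [] h11 h1 NC.nil
        have h3 := NC.wrap y2 x2 (x1 :: ((d :: (U ++ [c])) ++ [y1])) [] s22 h2 NC.nil
        have h4 := NC.wrap c d (y2 :: ((x1 :: ((d :: (U ++ [c])) ++ [y1])) ++ [x2])) [] hcd h3
          NC.nil
        simpa [kk] using h4
  · intro h
    obtain ⟨a1, _, a3⟩ := all_letters hx12 hx1c hx2c hy12 hy1d hy2d w hw
    have key := (hTRG G (Bool × ℤ) ℤ R (dl c d) (tf x2 y2) (lt x1 x2 c y1 y2 d) ?_ _ h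
      (true, 0) a1).2
    · rw [a3] at key
      exact (hREL Bool ℤ io io_inj w).2 key
    · rintro ⟨b, η⟩ x y hxy hx hy
      cases b
      · have hx' : x = y1 ∨ x = y2 ∨ x = d := by simpa [lt] using hx
        have hy' : y = x1 ∨ y = x2 ∨ y = c := by simpa [lt, dl] using hy
        have hyx := hsym _ _ hxy
        rcases hx' with rfl | rfl | rfl <;> rcases hy' with rfl | rfl | rfl
        · refine ⟨by simp [dl, hx1c, hy1d], fun U hU => ?_⟩
          simpa [dl, tf, hx12, hy12] using hU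
        · refine ⟨by simp [dl, hx2c, hy1d], fun U hU => ?_⟩
          have := op_app U hU ((η, true) : ℤ × Bool)
          simpa [dl, tf, hy12, hy1d] using this
        · exact absurd hyx nc1
        · exact absurd hyx n12
        · refine ⟨by simp [dl, hx2c, hy2d], fun U hU => ?_⟩
          have := OP.wrap ((η, false) : ℤ × Bool) false true U [] hU OP.nil
          simpa [dl, tf, hy2d, iv] using this
        · exact absurd hyx nc2
        · exact absurd hyx n1d
        · exact absurd hyx n2d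
        · refine ⟨by simp [dl], fun U hU => ?_⟩
          simpa [dl, tf, Ne.symm hx2c, Ne.symm hy2d] using hU
      · have hx' : x = x1 ∨ x = x2 ∨ x = c := by simpa [lt] using hx
        have hy' : y = y1 ∨ y = y2 ∨ y = d := by simpa [lt, dl] using hy
        rcases hx' with rfl | rfl | rfl <;> rcases hy' with rfl | rfl | rfl
        · refine ⟨by simp [dl, hx1c, hy1d], fun U hU => ?_⟩
          simpa [dl, tf, hx12, hy12] using hU
        · exact absurd hxy n12
        · exact absurd hxy n1d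
        · refine ⟨by simp [dl, hx2c, hy1d], fun U hU => ?_⟩
          have := OP.skip ((η, true) : ℤ × Bool) U hU
          simpa [dl, tf, hy12] using this
        · refine ⟨by simp [dl, hx2c, hy2d], fun U hU => ?_⟩
          have := OP.wrap ((η, true) : ℤ × Bool) true false U [] hU OP.nil
          simpa [dl, tf, hx2c, iv] using this
        · exact absurd hxy n2d
        · exact absurd hxy nc1
        · exact absurd hxy nc2
        · refine ⟨by simp [dl], fun U hU => ?_⟩
          simpa [dl, tf, Ne.symm hx2c, Ne.symm hy2d] using hU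

end Pool.Agent.Helper70.DI
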